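import Pool.Agent.KS6_36.PLP.Main

set_option autoImplicit false

/-! MP_359af5_co: a refined points-lines-planes inequality for finite sets in affine spaces of any
dimension over any division ring, with the cases of equality. -/

namespace Pool.Agent.Results.MP_359af5_co.RefinedAllDimensions

open Pool.Agent.KS6_36.PLP

/-- Let `S` be a finite set of `p` points in an affine space of any dimension over any division
ring, with `l` lines and `π` planes. Then `l ^ 2 ≥ (3 / 2) p π + p ∑ 1 / |L ∩ S|`, the sum over
the lines `L` determined by `S`; and for `p ≥ 3` one has `2 (p - 2) l ^ 2 ≥ 3 p (p - 1) π`, with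
equality exactly when `S` is in general position. In general position the first inequality is an
equality too. -/
theorem result {k V P : Type*} [DivisionRing k] [AddCommGroup V] [Module k V] [AddTorsor V P]
    (S : Finset P) :
    (lines k S).Finite ∧ (planes k S).Finite ∧
    3 / 2 * (S.card : ℝ) * ((planes k S).ncard : ℝ)
        + (S.card : ℝ) * ∑ᶠ L ∈ lines k S, 1 / (num S L : ℝ) ≤ ((lines k S).ncard : ℝ) ^ 2 ∧
    (3 ≤ S.card →
      3 * (S.card : ℝ) * ((S.card : ℝ) - 1) * ((planes k S).ncard : ℝ) ≤
        2 * ((S.card : ℝ) - 2) * ((lines k S).ncard : ℝ) ^ 2 ∧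
      (3 * (S.card : ℝ) * ((S.card : ℝ) - 1) * ((planes k S).ncard : ℝ) =
        2 * ((S.card : ℝ) - 2) * ((lines k S).ncard : ℝ) ^ 2 ↔ GenPos k S)) ∧
    (GenPos k S → 3 / 2 * (S.card : ℝ) * ((planes k S).ncard : ℝ)
        + (S.card : ℝ) * ∑ᶠ L ∈ lines k S, 1 / (num S L : ℝ) = ((lines k S).ncard : ℝ) ^ 2) :=
  main k S

end Pool.Agent.Results.MP_359af5_co.RefinedAllDimensions
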